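import Pool.Agent.H13.Poor

namespace Pool.Agent.Results.MP_aa1901_an.NonCongl

open Pool.Agent.H13.Poor

theorem result : ∃ F : Filter ℕ, Free F ∧ ¬ Congl F ∧ ¬ Generated F :=
  let ⟨F, h1, h2, h3⟩ := exists_poor
  ⟨F, h1, h2.not_congl, h3⟩

end Pool.Agent.Results.MP_aa1901_an.NonCongl
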